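import Mathlib

/-!
# MP_64a46a_co: a benzenoid hexagon with ring bond order 3

We prove that there is a benzenoid system (with nine hexagons) having a Kekulé structure, and
having a hexagon `h` with ring bond order exactly `3`; every Kekulé structure has three of its
double bonds on `h`.  This answers Q1 positively and refutes the conjecture.

The benzenoid system is given, as in the problem, by a cycle `C` of the regular hexagonal
lattice: it consists of `C` and of all lattice vertices and edges inside `C`.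
-/

namespace Pool.Agent.Results.MP_64a46a_co.RingBondOrderThree

/-- The hexagonal faces of the regular hexagonal lattice, in axial coordinates: the centre of
the face `(q, r)` is `q • (1, 0) + r • (1/2, √3/2)`.  So the six faces around `(q, r)` are
`(q ± 1, r)`, `(q, r ± 1)`, `(q + 1, r - 1)`, `(q - 1, r + 1)`. -/
abbrev Cell := ℤ × ℤ

/-- The vertices of the regular hexagonal lattice: `(false, q, r)` is the common corner of the
faces `(q, r)`, `(q + 1, r)`, `(q, r + 1)`, and `(true, q, r)` is the common corner of the faces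
`(q, r)`, `(q + 1, r)`, `(q + 1, r - 1)`. -/
abbrev Vtx := Bool × ℤ × ℤ

/-- The regular hexagonal lattice: two vertices are adjacent iff they lie on two common
faces. -/
def hexLattice : SimpleGraph Vtx :=
  SimpleGraph.fromRel fun u v => u.1 = false ∧ v.1 = true ∧
    (v.2 = (u.2.1, u.2.2) ∨ v.2 = (u.2.1 - 1, u.2.2 + 1) ∨ v.2 = (u.2.1, u.2.2 + 1))

/-- The six corners of a hexagonal face, in cyclic order. -/
def corner (c : Cell) : Fin 6 → Vtx :=
  ![(false, c.1, c.2), (true, c.1, c.2), (false, c.1, c.2 - 1), (true, c.1 - 1, c.2),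
    (false, c.1 - 1, c.2), (true, c.1 - 1, c.2 + 1)]

/-- The six edges of a hexagonal face. -/
def cellEdges (c : Cell) : Finset (Sym2 Vtx) :=
  Finset.univ.image fun i : Fin 6 => s(corner c i, corner c (i + 1))

/-- A cycle of the hexagonal lattice, of length `n + 3`. -/
structure LatticeCycle (n : ℕ) where
  /-- the vertices of the cycle, in cyclic order -/
  pt : Fin (n + 3) → Vtx
  inj : Function.Injective pt
  adj : ∀ i, hexLattice.Adj (pt i) (pt (i + 1))

variable {n : ℕ}

/-- The edges of a lattice cycle. -/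
def LatticeCycle.edges (C : LatticeCycle n) : Set (Sym2 Vtx) :=
  {e | ∃ i, e = s(C.pt i, C.pt (i + 1))}

/-- Two faces are joined if they share an edge that is not an edge of the cycle `C`. -/
def Cross (C : LatticeCycle n) (c d : Cell) : Prop :=
  ∃ e, e ∈ cellEdges c ∧ e ∈ cellEdges d ∧ e ∉ C.edges

/-- A face is inside the cycle `C` if only finitely many faces can be reached from it
without crossing an edge of `C`. -/
def Inside (C : LatticeCycle n) (c : Cell) : Prop :=
  {d | Relation.ReflTransGen (Cross C) c d}.Finite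

/-- The vertices of the benzenoid system of `C`: the vertices of `C`, and the lattice vertices
inside `C` (all faces around the vertex are inside `C`). -/
def benzV (C : LatticeCycle n) : Set Vtx :=
  {v | v ∈ Set.range C.pt ∨ ∀ c, v ∈ Set.range (corner c) → Inside C c}

/-- The edges of the benzenoid system of `C`: the edges of `C`, and the lattice edges inside `C`
(both faces along the edge are inside `C`). -/
def benzE (C : LatticeCycle n) : Set (Sym2 Vtx) :=
  {e | e ∈ C.edges ∨ (e ∈ hexLattice.edgeSet ∧ ∀ c, e ∈ cellEdges c → Inside C c)}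

/-- The Kekulé structures (perfect matchings) of the benzenoid system of `C`. -/
def Kekule (C : LatticeCycle n) : Set (Finset (Sym2 Vtx)) :=
  {M | (M : Set (Sym2 Vtx)) ⊆ benzE C ∧ ∀ v ∈ benzV C, ∃! e, e ∈ M ∧ v ∈ e}

/-- The Pauling bond order of an edge. -/
noncomputable def bondOrder (C : LatticeCycle n) (e : Sym2 Vtx) : ℚ :=
  ({M | M ∈ Kekule C ∧ e ∈ M}.ncard : ℚ) / ((Kekule C).ncard : ℚ)

/-- The ring bond order of a hexagon: the sum of the Pauling bond orders of its edges. -/
noncomputable def ringBondOrder (C : LatticeCycle n) (h : Cell) : ℚ :=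
  ∑ e ∈ cellEdges h, bondOrder C e

/-! ### Elementary facts on the lattice -/

/-- The displacement to the face across the `i`-th edge of a face. -/
def dir : Fin 6 → ℤ × ℤ := ![(1, 0), (1, -1), (0, -1), (-1, 0), (-1, 1), (0, 1)]

lemma cell_of_edge (c d : Cell) (i : Fin 6)
    (h : s(corner c i, corner c (i + 1)) ∈ cellEdges d) : d = c ∨ d = c + dir i := by
  obtain ⟨c1, c2⟩ := c
  obtain ⟨d1, d2⟩ := d
  simp only [cellEdges, Finset.mem_image, Finset.mem_univ, true_and] at h
  obtain ⟨j, hj⟩ := h
  fin_cases i <;> fin_cases j <;>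
    simp [corner, dir, Prod.ext_iff] at hj ⊢ <;> omega

lemma lattice_edge (e : Sym2 Vtx) (he : e ∈ hexLattice.edgeSet) : ∃ c, e ∈ cellEdges c := by
  have key : ∀ u v : Vtx, (u.1 = false ∧ v.1 = true ∧
      (v.2 = (u.2.1, u.2.2) ∨ v.2 = (u.2.1 - 1, u.2.2 + 1) ∨ v.2 = (u.2.1, u.2.2 + 1))) →
      ∃ c, s(u, v) ∈ cellEdges c := by
    rintro ⟨a, q, r⟩ ⟨b, q', r'⟩ ⟨h1, h2, h3⟩
    simp only at h1 h2 h3
    subst h1 h2
    rcases h3 with h | h | h
    · obtain ⟨rfl, rfl⟩ := Prod.mk.inj h
      refine ⟨(q', r'), ?_⟩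
      simp only [cellEdges, Finset.mem_image, Finset.mem_univ, true_and]
      exact ⟨0, by simp [corner]⟩
    · obtain ⟨rfl, rfl⟩ := Prod.mk.inj h
      refine ⟨(q, r), ?_⟩
      simp only [cellEdges, Finset.mem_image, Finset.mem_univ, true_and]
      exact ⟨5, by simp [corner, Sym2.eq_swap]⟩
    · obtain ⟨rfl, rfl⟩ := Prod.mk.inj h
      refine ⟨(q', r + 1), ?_⟩
      simp only [cellEdges, Finset.mem_image, Finset.mem_univ, true_and]
      exact ⟨1, by simp [corner, Sym2.eq_swap]⟩
  induction e using Sym2.ind with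
  | _ u v =>
    rw [SimpleGraph.mem_edgeSet, hexLattice, SimpleGraph.fromRel_adj] at he
    rcases he.2 with h | h
    · exact key u v h
    · rw [Sym2.eq_swap]; exact key v u h

lemma corner_cell (c d : Cell) (i : Fin 6) (h : corner c i ∈ Set.range (corner d)) :
    d ∈ ([c, c + dir i, c + dir (i + 5)] : List Cell) := by
  obtain ⟨c1, c2⟩ := c
  obtain ⟨d1, d2⟩ := d
  obtain ⟨j, hj⟩ := h
  fin_cases i <;> fin_cases j <;>
    simp [corner, dir, Prod.ext_iff] at hj ⊢ <;> omega

lemma vertex_cell (v : Vtx) : ∃ c, v ∈ Set.range (corner c) := by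
  obtain ⟨b, q, r⟩ := v
  cases b
  · exact ⟨(q, r), 0, by simp [corner]⟩
  · exact ⟨(q, r), 1, by simp [corner]⟩

/-! ### The example -/

/-- The vertices of the boundary cycle. -/
def pts : Fin 34 → Vtx :=
  ![(false, -5, 3), (true, -5, 3), (false, -4, 2), (true, -4, 3), (false, -3, 2), (true, -3, 2),
    (false, -2, 1), (true, -2, 1), (false, -1, 0), (true, -1, 0), (false, 0, -1), (true, 0, 0),
    (false, 0, 0), (true, -1, 1), (false, -1, 1), (true, -1, 2), (false, -1, 2), (true, -2, 3),
    (false, -2, 2), (true, -3, 3), (false, -3, 3), (true, -3, 4), (false, -2, 3), (true, -2, 4),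
    (false, -2, 4), (true, -3, 5), (false, -3, 5), (true, -4, 6), (false, -4, 5), (true, -4, 5),
    (false, -4, 4), (true, -4, 4), (false, -4, 3), (true, -5, 4)]

lemma pts_adj : ∀ i, hexLattice.Adj (pts i) (pts (i + 1)) := by
  intro i
  rw [hexLattice, SimpleGraph.fromRel_adj]
  revert i
  decide +kernel

lemma pts_inj : Function.Injective pts := by
  have : ∀ i j, pts i = pts j → i = j := by decide +kernel
  exact fun i j h => this i j h

/-- The boundary cycle. -/
def C₀ : LatticeCycle 31 := ⟨pts, pts_inj, pts_adj⟩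

/-- The nine hexagons. -/
def S : Finset Cell :=
  {(0, 0), (-1, 1), (-2, 2), (-3, 3), (-3, 4), (-3, 5), (-2, 4), (-4, 3), (-1, 2)}

instance (e : Sym2 Vtx) : Decidable (e ∈ C₀.edges) :=
  inferInstanceAs (Decidable (∃ i : Fin 34, e = s(pts i, pts (i + 1))))

lemma S_check : ∀ c ∈ S, ∀ i : Fin 6,
    s(corner c i, corner c (i + 1)) ∈ C₀.edges ∨ c + dir i ∈ S := by decide +kernel

lemma C_check : ∀ i : Fin 34, ∃ c ∈ S, ∃ j : Fin 6,
    s(pts i, pts (i + 1)) = s(corner c j, corner c (j + 1)) := by decide +kernel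

lemma cross_mem {c d : Cell} (hc : c ∈ S) (h : Cross C₀ c d) : d ∈ S := by
  obtain ⟨e, he, he', hC⟩ := h
  simp only [cellEdges, Finset.mem_image, Finset.mem_univ, true_and] at he
  obtain ⟨i, rfl⟩ := he
  rcases cell_of_edge c d i he' with rfl | rfl
  · exact hc
  · rcases S_check c hc i with h | h
    · exact absurd h hC
    · exact h

lemma inside_of_mem {c : Cell} (hc : c ∈ S) : Inside C₀ c := by
  refine S.finite_toSet.subset ?_
  intro d hd
  change Relation.ReflTransGen (Cross C₀) c d at hd
  induction hd with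
  | refl => exact hc
  | tail _ h ih => exact cross_mem ih h

lemma cross_right {q r : ℤ} (h1 : (q, r) ∉ S) (h2 : (q + 1, r) ∉ S) :
    s(corner (q, r) 0, corner (q, r) 1) ∉ C₀.edges := by
  rintro ⟨i, hi⟩
  obtain ⟨c, hc, j, hj⟩ := C_check i
  have h3 : s(corner (q, r) 0, corner (q, r) (0 + 1)) ∈ cellEdges c := by
    simp only [cellEdges, Finset.mem_image, Finset.mem_univ, true_and]
    refine ⟨j, ?_⟩
    rw [← hj]
    exact hi.symm
  rcases cell_of_edge (q, r) c 0 h3 with h | h
  · subst h; exact h1 hc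
  · subst h
    apply h2
    simpa [dir] using hc

lemma cross_right' {q r : ℤ} (h1 : (q, r) ∉ S) (h2 : (q + 1, r) ∉ S) :
    Cross C₀ (q, r) (q + 1, r) ∧ Cross C₀ (q + 1, r) (q, r) := by
  have h := cross_right h1 h2
  have ha : s(corner (q, r) 0, corner (q, r) 1) ∈ cellEdges (q, r) := by
    simp only [cellEdges, Finset.mem_image, Finset.mem_univ, true_and]
    exact ⟨0, rfl⟩
  have hb : s(corner (q, r) 0, corner (q, r) 1) ∈ cellEdges (q + 1, r) := by
    simp only [cellEdges, Finset.mem_image, Finset.mem_univ, true_and]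
    refine ⟨3, ?_⟩
    simp [corner, Sym2.eq_swap]
  exact ⟨⟨_, ha, hb, h⟩, ⟨_, hb, ha, h⟩⟩

lemma row_cases (q r : ℤ) (h : (q, r) ∉ S) :
    (∀ k : ℕ, (q + k, r) ∉ S) ∨ (∀ k : ℕ, (q - k, r) ∉ S) := by
  by_contra hcon
  push Not at hcon
  obtain ⟨⟨k, hk⟩, ⟨l, hl⟩⟩ := hcon
  simp only [S, Finset.mem_insert, Finset.mem_singleton, Prod.mk.injEq] at h hk hl
  omega

lemma mem_of_inside {c : Cell} (hc : Inside C₀ c) : c ∈ S := by
  by_contra hS
  obtain ⟨q, r⟩ := c
  rcases row_cases q r hS with h | h
  · have hr : ∀ k : ℕ, Relation.ReflTransGen (Cross C₀) (q, r) (q + k, r) := by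
      intro k
      induction k with
      | zero => simpa using Relation.ReflTransGen.refl
      | succ k ih =>
        refine ih.tail ?_
        have h1 := h k
        have h2 := h (k + 1)
        have h3 : q + ((k + 1 : ℕ) : ℤ) = (q + k) + 1 := by push_cast; ring
        rw [h3] at h2 ⊢
        exact (cross_right' h1 h2).1
    have hinj : Function.Injective (fun k : ℕ => ((q + k, r) : Cell)) := by
      intro a b hab
      simpa using hab
    exact Set.infinite_of_injective_forall_mem hinj hr hc
  · have hr : ∀ k : ℕ, Relation.ReflTransGen (Cross C₀) (q, r) (q - k, r) := by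
      intro k
      induction k with
      | zero => simpa using Relation.ReflTransGen.refl
      | succ k ih =>
        refine ih.tail ?_
        have h1 := h k
        have h2 := h (k + 1)
        have h3 : q - (k : ℤ) = (q - ((k + 1 : ℕ) : ℤ)) + 1 := by push_cast; ring
        rw [h3] at h1 ⊢
        exact (cross_right' h2 h1).2
    have hinj : Function.Injective (fun k : ℕ => ((q - k, r) : Cell)) := by
      intro a b hab
      simpa using hab
    exact Set.infinite_of_injective_forall_mem hinj hr hc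

lemma inside_iff (c : Cell) : Inside C₀ c ↔ c ∈ S := ⟨mem_of_inside, inside_of_mem⟩

/-- All edges of the example. -/
def E₀ : Finset (Sym2 Vtx) := S.biUnion cellEdges

/-- All vertices of the example. -/
def V₀ : Finset Vtx := S.biUnion fun c => Finset.univ.image (corner c)

lemma benzE_subset {e : Sym2 Vtx} (he : e ∈ benzE C₀) : e ∈ E₀ := by
  rw [E₀, Finset.mem_biUnion]
  rcases he with he | ⟨he, he'⟩
  · obtain ⟨i, hi⟩ := he
    obtain ⟨c, hc, j, hj⟩ := C_check i
    refine ⟨c, hc, ?_⟩
    simp only [cellEdges, Finset.mem_image, Finset.mem_univ, true_and]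
    exact ⟨j, by rw [← hj]; exact hi.symm⟩
  · obtain ⟨c, hc⟩ := lattice_edge e he
    exact ⟨c, mem_of_inside (he' c hc), hc⟩

lemma pts_mem : ∀ i : Fin 34, pts i ∈ V₀ := by decide +kernel

lemma benzV_subset {v : Vtx} (hv : v ∈ benzV C₀) : v ∈ V₀ := by
  rcases hv with ⟨i, rfl⟩ | hv
  · exact pts_mem i
  · obtain ⟨c, i, rfl⟩ := vertex_cell v
    rw [V₀, Finset.mem_biUnion]
    exact ⟨c, mem_of_inside (hv c ⟨i, rfl⟩), Finset.mem_image.2 ⟨i, Finset.mem_univ _, rfl⟩⟩

lemma V_check : ∀ c ∈ S, ∀ i : Fin 6,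
    (∃ j : Fin 34, pts j = corner c i) ∨ (c + dir i ∈ S ∧ c + dir (i + 5) ∈ S) := by
  decide +kernel

lemma subset_benzV {v : Vtx} (hv : v ∈ V₀) : v ∈ benzV C₀ := by
  rw [V₀, Finset.mem_biUnion] at hv
  obtain ⟨c, hc, hv⟩ := hv
  obtain ⟨i, -, rfl⟩ := Finset.mem_image.1 hv
  rcases V_check c hc i with ⟨j, hj⟩ | ⟨h1, h2⟩
  · exact Or.inl ⟨j, hj⟩
  · refine Or.inr fun d hd => ?_
    rw [inside_iff]
    have := corner_cell c d i hd
    simp only [List.mem_cons, List.not_mem_nil, or_false] at this
    rcases this with rfl | rfl | rfl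
    · exact hc
    · exact h1
    · exact h2

lemma subset_benzE {e : Sym2 Vtx} (he : e ∈ E₀) (hl : e ∈ hexLattice.edgeSet) :
    e ∈ benzE C₀ := by
  rw [E₀, Finset.mem_biUnion] at he
  obtain ⟨c, hc, he⟩ := he
  simp only [cellEdges, Finset.mem_image, Finset.mem_univ, true_and] at he
  obtain ⟨i, rfl⟩ := he
  rcases S_check c hc i with h | h
  · exact Or.inl h
  · refine Or.inr ⟨hl, fun d hd => ?_⟩
    rw [inside_iff]
    rcases cell_of_edge c d i hd with rfl | rfl
    · exact hc
    · exact h

/-! ### Kekulé structures of the example -/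

/-- A Kekulé structure. -/
def M₀ : Finset (Sym2 Vtx) :=
  {s((false, -5, 3), (true, -5, 3)), s((false, -4, 2), (true, -4, 3)),
   s((false, -4, 3), (true, -5, 4)), s((false, -4, 4), (true, -4, 4)),
   s((false, -4, 5), (true, -4, 5)), s((false, -3, 5), (true, -4, 6)),
   s((false, -3, 2), (true, -3, 2)), s((false, -3, 3), (true, -3, 3)),
   s((false, -3, 4), (true, -3, 4)), s((false, -2, 3), (true, -2, 4)),
   s((false, -2, 4), (true, -3, 5)), s((false, -2, 1), (true, -2, 1)),
   s((false, -2, 2), (true, -2, 2)), s((false, -1, 2), (true, -2, 3)),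
   s((false, -1, 1), (true, -1, 2)), s((false, -1, 0), (true, -1, 0)),
   s((false, 0, -1), (true, 0, 0)), s((false, 0, 0), (true, -1, 1))}

lemma E₀_lattice {e : Sym2 Vtx} (he : e ∈ E₀) : e ∈ hexLattice.edgeSet := by
  rw [E₀, Finset.mem_biUnion] at he
  obtain ⟨⟨q, r⟩, -, he⟩ := he
  simp only [cellEdges, Finset.mem_image, Finset.mem_univ, true_and] at he
  obtain ⟨i, rfl⟩ := he
  rw [SimpleGraph.mem_edgeSet, hexLattice, SimpleGraph.fromRel_adj]
  fin_cases i <;> simp [corner]

lemma M₀_sub : M₀ ⊆ E₀ := by decide +kernel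

lemma M₀_deg : ∀ v ∈ V₀, (M₀.filter (fun e => v ∈ e)).card = 1 := by decide +kernel

lemma M₀_kekule : M₀ ∈ Kekule C₀ := by
  refine ⟨fun e he => ?_, fun v hv => ?_⟩
  · have h := M₀_sub (Finset.mem_coe.1 he)
    exact subset_benzE h (E₀_lattice h)
  · obtain ⟨e, he⟩ := Finset.card_eq_one.1 (M₀_deg v (benzV_subset hv))
    have key : ∀ f, (f ∈ M₀ ∧ v ∈ f) ↔ f = e := by
      intro f
      have := congrArg (fun T => f ∈ T) he
      simpa [Finset.mem_filter] using this
    exact ⟨e, (key e).2 rfl, fun f hf => (key f).1 hf⟩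

/-- The exceptional hexagon. -/
def h₀ : Cell := (-4, 3)

/-- Three corners of the exceptional hexagon. -/
def Q₀ : Finset Vtx := {(false, -5, 3), (false, -4, 2), (false, -4, 3)}

/-- Ten vertices of one colour. -/
def P₀ : Finset Vtx :=
  {(false, -5, 3), (false, -4, 2), (false, -4, 3), (false, -4, 4), (false, -4, 5),
   (false, -3, 3), (false, -3, 4), (false, -3, 5), (false, -2, 3), (false, -2, 4)}

/-- Six vertices of the other colour. -/
def N₀ : Finset Vtx :=
  {(true, -4, 4), (true, -4, 5), (true, -4, 6), (true, -3, 4), (true, -3, 5), (true, -2, 4)}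

/-- The fixed double bond of the central hexagon. -/
def l₀ : Sym2 Vtx := s((false, -3, 3), (true, -3, 3))

lemma edge_check : ∀ e ∈ E₀, (P₀.filter (fun v => v ∈ e)).card ≤
    (N₀.filter (fun v => v ∈ e)).card + ((if e ∈ cellEdges h₀ then 1 else 0) +
      (if e = l₀ then 1 else 0)) := by decide +kernel

lemma edge_check' : ∀ e ∈ E₀, (if e ∈ cellEdges h₀ then 1 else 0) ≤
    (Q₀.filter (fun v => v ∈ e)).card := by decide +kernel

lemma deg_sum {M : Finset (Sym2 Vtx)} (hM : M ∈ Kekule C₀) {A : Finset Vtx} (hA : A ⊆ V₀) :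
    ∑ e ∈ M, (A.filter (fun v => v ∈ e)).card = A.card := by
  have h1 : ∀ v ∈ A, (M.filter (fun e => v ∈ e)).card = 1 := by
    intro v hv
    obtain ⟨e, he, hu⟩ := hM.2 v (subset_benzV (hA hv))
    rw [Finset.card_eq_one]
    refine ⟨e, ?_⟩
    ext f
    simp only [Finset.mem_filter, Finset.mem_singleton]
    exact ⟨fun hf => hu f hf, fun hf => hf ▸ he⟩
  have h2 : ∑ e ∈ M, (A.filter (fun v => v ∈ e)).card
      = ∑ v ∈ A, (M.filter (fun e => v ∈ e)).card := by
    simp only [Finset.card_filter]
    exact Finset.sum_comm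
  rw [h2, Finset.sum_congr rfl h1]
  simp

lemma three {M : Finset (Sym2 Vtx)} (hM : M ∈ Kekule C₀) : (M ∩ cellEdges h₀).card = 3 := by
  have hE : ∀ e ∈ M, e ∈ E₀ := fun e he => benzE_subset (hM.1 he)
  have hcard : (M ∩ cellEdges h₀).card = ∑ e ∈ M, (if e ∈ cellEdges h₀ then 1 else 0) := by
    rw [← Finset.card_filter, Finset.filter_mem_eq_inter]
  have hl : ∑ e ∈ M, (if e = l₀ then 1 else 0) ≤ 1 := by
    rw [Finset.sum_ite_eq']
    split_ifs <;> simp
  have hP := deg_sum hM (A := P₀) (by decide +kernel)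
  have hN := deg_sum hM (A := N₀) (by decide +kernel)
  have hQ := deg_sum hM (A := Q₀) (by decide +kernel)
  have cP : P₀.card = 10 := by decide +kernel
  have cN : N₀.card = 6 := by decide +kernel
  have cQ : Q₀.card = 3 := by decide +kernel
  have h1 := Finset.sum_le_sum fun e he => edge_check e (hE e he)
  rw [Finset.sum_add_distrib, Finset.sum_add_distrib, hP, hN, cP, cN] at h1
  have h2 := Finset.sum_le_sum fun e he => edge_check' e (hE e he)
  rw [hQ, cQ] at h2
  omega

lemma kekule_finite : (Kekule C₀).Finite := by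
  refine (E₀.powerset : Finset (Finset (Sym2 Vtx))).finite_toSet.subset ?_
  intro M hM
  rw [Finset.mem_coe, Finset.mem_powerset]
  exact fun e he => benzE_subset (hM.1 he)

lemma kekule_pos : 1 ≤ (Kekule C₀).ncard :=
  (Set.ncard_pos kekule_finite).2 ⟨M₀, M₀_kekule⟩

lemma rbo_eq : ringBondOrder C₀ h₀ = 3 := by
  classical
  have hK : ((Kekule C₀).ncard : ℚ) ≠ 0 := by
    have := kekule_pos
    exact_mod_cast (by omega : (Kekule C₀).ncard ≠ 0)
  have h1 : (Kekule C₀).ncard = kekule_finite.toFinset.card :=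
    Set.ncard_eq_toFinset_card _ kekule_finite
  have h2 : ∀ e, {M | M ∈ Kekule C₀ ∧ e ∈ M}.ncard =
      (kekule_finite.toFinset.filter (fun M => e ∈ M)).card := by
    intro e
    rw [← Set.ncard_coe_finset]
    congr 1
    ext M
    simp
  have h3 : ∑ e ∈ cellEdges h₀, (kekule_finite.toFinset.filter (fun M => e ∈ M)).card
      = 3 * kekule_finite.toFinset.card := by
    simp only [Finset.card_filter]
    rw [Finset.sum_comm]
    have : ∀ M ∈ kekule_finite.toFinset,
        ∑ e ∈ cellEdges h₀, (if e ∈ M then 1 else 0) = 3 := by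
      intro M hM
      rw [← Finset.card_filter, Finset.filter_mem_eq_inter, Finset.inter_comm]
      exact three ((Set.Finite.mem_toFinset _).1 hM)
    rw [Finset.sum_congr rfl this]
    simp [mul_comm]
  unfold ringBondOrder bondOrder
  rw [← Finset.sum_div, div_eq_iff hK]
  simp only [h2]
  rw [← Nat.cast_sum, h3, h1]
  push_cast
  ring

/-- **Answer to Q1: yes.**  There is a benzenoid system with at least two hexagons and at least
one Kekulé structure which has a hexagon `h` of ring bond order `3`; in every Kekulé structure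
exactly three edges of `h` are double bonds. -/
theorem result : ∃ (n : ℕ) (C : LatticeCycle n),
    2 ≤ {c | Inside C c}.ncard ∧ 1 ≤ (Kekule C).ncard ∧
    ∃ h, Inside C h ∧ ringBondOrder C h = 3 ∧
      ∀ M ∈ Kekule C, (M ∩ cellEdges h).card = 3 := by
  refine ⟨31, C₀, ?_, kekule_pos, h₀, inside_of_mem (by decide +kernel), rbo_eq,
    fun M hM => three hM⟩
  have : {c | Inside C₀ c} = (S : Set Cell) := by
    ext c
    exact inside_iff c
  rw [this, Set.ncard_coe_finset]
  decide +kernel

end Pool.Agent.Results.MP_64a46a_co.RingBondOrderThree
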